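import Pool.Agent.Helper6.TRI.GDefs

/-!
# TRI, G0: ultraproducts of fields with generic coordinates

The index set are the nonzero polynomials over `k₀`; the ultrafilter contains the sets of the multiples of every nonzero polynomial.
-/

set_option autoImplicit false

namespace Pool.Agent.TRI

open Module MvPolynomial Filter

universe u

private theorem ultra_core {k₀ : Type u} [Field k₀] {J : Type u} (U : Ultrafilter J) (E : J → Type u) [∀ j, Field (E j)]
    [∀ j, Algebra k₀ (E j)] :
    ∃ (F : Type u) (_ : Field F) (_ : Algebra k₀ F) (π : (∀ j, E j) →ₐ[k₀] F), Function.Surjective π ∧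
      ∀ x, π x = 0 ↔ ∀ᶠ j in (U : Filter J), x j = 0 := by
  classical
  let nul : Ideal (∀ j, E j) :=
    { carrier := {x | ∀ᶠ j in (U : Filter J), x j = 0}
      zero_mem' := Eventually.of_forall fun _ => rfl
      add_mem' := by
        intro x y hx hy
        filter_upwards [hx, hy] with j h1 h2
        rw [Pi.add_apply, h1, h2, add_zero]
      smul_mem' := by
        intro c x hx
        filter_upwards [hx] with j h1
        rw [smul_eq_mul, Pi.mul_apply, h1, mul_zero] }
  have mem_nul : ∀ x : ∀ j, E j, x ∈ nul ↔ ∀ᶠ j in (U : Filter J), x j = 0 := fun x => Iff.rfl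
  have hmax : nul.IsMaximal := by
    rw [Ideal.isMaximal_iff]
    refine ⟨fun h => ?_, fun I x hI hx hxI => ?_⟩
    · rw [mem_nul] at h
      obtain ⟨j, hj⟩ := h.exists
      exact one_ne_zero hj
    · have h1 : ∀ᶠ j in (U : Filter J), x j ≠ 0 := Ultrafilter.eventually_not.2 hx
      have h2 : (1 : ∀ j, E j) - (fun j => (x j)⁻¹) * x ∈ nul := by
        rw [mem_nul]
        filter_upwards [h1] with j hj
        rw [Pi.sub_apply, Pi.mul_apply, Pi.one_apply, inv_mul_cancel₀ hj, sub_self]
      have h3 := I.add_mem (hI h2) (I.mul_mem_left (fun j => (x j)⁻¹) hxI)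
      rwa [sub_add_cancel] at h3
  refine ⟨(∀ j, E j) ⧸ nul, Ideal.Quotient.field nul, inferInstance, Ideal.Quotient.mkₐ k₀ nul, Ideal.Quotient.mk_surjective, ?_⟩
  intro x
  rw [← mem_nul]
  exact Ideal.Quotient.eq_zero_iff_mem

theorem ultra {k₀ : Type u} [Field k₀] {v : Type} [Finite v] (E : {Φ : MvPolynomial v k₀ // Φ ≠ 0} → Type u)
    [∀ j, Field (E j)] [∀ j, Algebra k₀ (E j)] (κ : ∀ j, IntermediateField k₀ (E j)) (l : ∀ j, v → E j)
    (hΦ : ∀ j, aeval (l j) j.1 ≠ 0) :
    ∃ (U : Ultrafilter {Φ : MvPolynomial v k₀ // Φ ≠ 0}) (F : Type u) (_ : Field F) (_ : Algebra k₀ F) (κ' : IntermediateField k₀ F)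
      (π : (∀ j, E j) →ₐ[k₀] F), Function.Surjective π ∧ (∀ x, π x = 0 ↔ ∀ᶠ j in (U : Filter _), x j = 0) ∧
      (∀ x, π x ∈ κ' ↔ ∀ᶠ j in (U : Filter _), x j ∈ κ j) ∧ AlgebraicIndependent k₀ (fun i => π fun j => l j i) ∧
      ((∀ j, AC (κ j)) → AC κ') := by
  classical
  let J := {Φ : MvPolynomial v k₀ // Φ ≠ 0}
  let A : J → Set J := fun Φ => {Ψ | Φ.1 ∣ Ψ.1}
  let G : Filter J := ⨅ Φ : J, 𝓟 (A Φ)
  have hne : Nonempty J := ⟨⟨1, one_ne_zero⟩⟩
  have hdir : Directed (· ≥ ·) fun Φ : J => 𝓟 (A Φ) := by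
    intro Φ Ψ
    refine ⟨⟨Φ.1 * Ψ.1, mul_ne_zero Φ.2 Ψ.2⟩, ?_, ?_⟩
    · exact principal_mono.2 fun Θ hΘ => (Dvd.intro _ rfl).trans hΘ
    · exact principal_mono.2 fun Θ hΘ => (Dvd.intro_left _ rfl).trans hΘ
  have hG : NeBot G := by
    refine iInf_neBot_of_directed' hdir fun Φ => ?_
    exact principal_neBot_iff.2 ⟨Φ, dvd_refl Φ.1⟩
  let U : Ultrafilter J := Ultrafilter.of G
  have hU : ∀ Φ : J, ∀ᶠ j in (U : Filter J), Φ.1 ∣ j.1 := by
    intro Φ
    have h1 : (U : Filter J) ≤ 𝓟 (A Φ) := (Ultrafilter.of_le G).trans (iInf_le _ Φ)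
    exact h1 (mem_principal_self _)
  obtain ⟨F, iF, iA, π, hsurj, hz⟩ := ultra_core (k₀ := k₀) U E
  have heq : ∀ x y : ∀ j, E j, π x = π y ↔ ∀ᶠ j in (U : Filter J), x j = y j := by
    intro x y
    rw [← sub_eq_zero, ← map_sub, hz]
    constructor
    · intro h
      filter_upwards [h] with j hj
      exact sub_eq_zero.1 hj
    · intro h
      filter_upwards [h] with j hj
      rw [Pi.sub_apply, hj, sub_self]
  have hinv : ∀ x : ∀ j, E j, (π x)⁻¹ = π fun j => (x j)⁻¹ := by
    intro x
    by_cases h : π x = 0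
    · have h1 := (hz x).1 h
      rw [h, inv_zero, eq_comm, hz]
      filter_upwards [h1] with j hj
      rw [hj, inv_zero]
    · have h1 : ∀ᶠ j in (U : Filter J), x j ≠ 0 := by
        rw [hz] at h
        exact Ultrafilter.eventually_not.2 h
      apply inv_eq_of_mul_eq_one_right
      rw [← map_mul, ← map_one π, heq]
      filter_upwards [h1] with j hj
      exact mul_inv_cancel₀ hj
  let κ' : IntermediateField k₀ F :=
    { carrier := {z | ∃ x : ∀ j, E j, π x = z ∧ ∀ᶠ j in (U : Filter J), x j ∈ κ j}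
      mul_mem' := by
        rintro _ _ ⟨x, rfl, hx⟩ ⟨y, rfl, hy⟩
        exact ⟨x * y, map_mul _ _ _, (hx.and hy).mono fun j h => (κ j).mul_mem h.1 h.2⟩
      add_mem' := by
        rintro _ _ ⟨x, rfl, hx⟩ ⟨y, rfl, hy⟩
        exact ⟨x + y, map_add _ _ _, (hx.and hy).mono fun j h => (κ j).add_mem h.1 h.2⟩
      algebraMap_mem' := by
        intro c
        refine ⟨algebraMap k₀ (∀ j, E j) c, π.commutes c, Eventually.of_forall fun j => ?_⟩
        exact (κ j).algebraMap_mem c
      inv_mem' := by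
        rintro _ ⟨x, rfl, hx⟩
        exact ⟨fun j => (x j)⁻¹, (hinv x).symm, hx.mono fun j h => (κ j).inv_mem h⟩ }
  have hκ : ∀ x, π x ∈ κ' ↔ ∀ᶠ j in (U : Filter J), x j ∈ κ j := by
    intro x
    constructor
    · rintro ⟨y, hy, h⟩
      rw [heq] at hy
      refine (hy.and h).mono fun j h => ?_
      rw [← h.1]
      exact h.2
    · intro h
      exact ⟨x, rfl, h⟩
  refine ⟨U, F, iF, iA, κ', π, hsurj, hz, hκ, ?_, ?_⟩
  · -- algebraic independence
    rw [algebraicIndependent_iff]
    intro P hP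
    by_contra hP0
    have h1 : aeval (fun i => π fun j => l j i) P = π fun j => aeval (l j) P := by
      have h2 : (aeval (fun i => π fun j => l j i) : MvPolynomial v k₀ →ₐ[k₀] F) =
          π.comp (AlgHom.pi (R := k₀) (g := fun j => (aeval (l j) : MvPolynomial v k₀ →ₐ[k₀] E j))) := by
        apply MvPolynomial.algHom_ext
        intro i
        rw [aeval_X, AlgHom.comp_apply]
        congr 1
        funext j
        exact (aeval_X (l j) i).symm
      rw [h2]
      rfl
    rw [h1, hz] at hP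
    obtain ⟨j, hj1, hj2⟩ := (hP.and (hU ⟨P, hP0⟩)).exists
    obtain ⟨Q, hQ⟩ := hj2
    apply hΦ j
    rw [hQ, map_mul, hj1, zero_mul]
  · -- relatively algebraically closed
    intro hAC z hz'
    obtain ⟨x, rfl⟩ := hsurj z
    obtain ⟨p, hp0, hp⟩ := hz'
    -- lifts of the coefficients
    have hc : ∀ i : ℕ, ∃ c : ∀ j, E j, π c = (p.coeff i : F) ∧ ∀ j, c j ∈ κ j := by
      intro i
      obtain ⟨c, hc⟩ := hsurj (p.coeff i : F)
      have h1 : ∀ᶠ j in (U : Filter J), c j ∈ κ j := (hκ c).1 (by rw [hc]; exact (p.coeff i).2)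
      refine ⟨fun j => if c j ∈ κ j then c j else 0, ?_, ?_⟩
      · rw [← hc, heq]
        exact h1.mono fun j hj => if_pos hj
      · intro j
        dsimp only
        split_ifs with h
        · exact h
        · exact zero_mem _
    choose c hc1 hc2 using hc
    rw [hκ]
    have hlead : ∀ᶠ j in (U : Filter J), c p.natDegree j ≠ 0 := by
      rw [← Ultrafilter.eventually_not.symm.eq]
      intro h
      have h1 : π (c p.natDegree) = 0 := (hz _).2 h
      rw [hc1] at h1
      have h2 : p.coeff p.natDegree = 0 := by exact_mod_cast h1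
      exact hp0 (Polynomial.leadingCoeff_eq_zero.1 h2)
    have hroot : ∀ᶠ j in (U : Filter J), ∑ i ∈ Finset.range (p.natDegree + 1), c i j * x j ^ i = 0 := by
      have h1 : π (∑ i ∈ Finset.range (p.natDegree + 1), c i * x ^ i) = 0 := by
        rw [map_sum, ← hp, Polynomial.aeval_eq_sum_range]
        refine Finset.sum_congr rfl fun i _ => ?_
        rw [map_mul, hc1, map_pow]
        rfl
      rw [hz] at h1
      refine h1.mono fun j hj => ?_
      rw [← hj, Finset.sum_apply]
      rfl
    filter_upwards [hlead, hroot] with j h1 h2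
    apply hAC j
    let P : Polynomial (κ j) := ∑ i ∈ Finset.range (p.natDegree + 1), Polynomial.monomial i ⟨c i j, hc2 i j⟩
    refine ⟨P, ?_, ?_⟩
    · intro h0
      have h3 : P.coeff p.natDegree = ⟨c p.natDegree j, hc2 _ j⟩ := by
        rw [Polynomial.finsetSum_coeff, Finset.sum_eq_single p.natDegree]
        · rw [Polynomial.coeff_monomial, if_pos rfl]
        · intro i _ hi
          rw [Polynomial.coeff_monomial, if_neg hi]
        · intro h
          exact absurd (Finset.mem_range.2 (Nat.lt_succ_self _)) h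
      rw [h0, Polynomial.coeff_zero] at h3
      apply h1
      have h4 := congrArg Subtype.val h3
      exact h4.symm
    · rw [map_sum, ← h2]
      refine Finset.sum_congr rfl fun i _ => ?_
      rw [Polynomial.aeval_monomial]
      rfl

end Pool.Agent.TRI
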