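import Mathlib

/-!
A filled triangle acting on a linear order: the edges of the triangle dominate what is inside.
-/

set_option autoImplicit false

namespace Pool.Agent.Helper31.TRI

/-- The vertices `a`, `b`, `c` of a triangle with the labels `A`, `B`, `C`, joined by edges the
slopes of which are at least `1`; inside, an edge the slope of which is at most `1` in absolute
value leads from `a` to a vertex with the label `I`, which is never below `a`, `b` and `c`.  If
`a` is the highest vertex, the triangle and its interior behave like an edge with the same sign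
as the edges of the triangle. -/
theorem core {Ω : Type*} [LinearOrder Ω] (A B C I O₁ Y₁ Y₂ O₂ : Ω ≃o Ω)
    (rb : ∀ z w, z ≤ w → B w = A z → O₁ w ≤ Y₁ z)
    (rc : ∀ z w, z ≤ w → C w = A z → Y₂ w ≤ O₂ z)
    (leg : ∀ z w, z ≤ w → Y₂ w = Y₁ z → I w ≤ A z)
    (inner : ∀ q, I q ≤ A q → I q ≤ B q → I q ≤ C q → I q = A q)
    {t : Ω} (hb : B t ≤ A t) (hc : C t ≤ A t) :
    O₁ t ≤ O₂ t ∧ (O₂ t ≤ O₁ t → B t = A t ∧ C t = A t ∧ I t = A t) := by
  -- the point at which `b` reaches the height of `a`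
  obtain ⟨w₀, hw₀⟩ : ∃ w, B w = A t := B.surjective _
  have h0 : t ≤ w₀ := by
    rw [← B.le_iff_le, hw₀]
    exact hb
  have hOY : O₁ t ≤ Y₁ t := (O₁.monotone h0).trans (rb t w₀ h0 hw₀)
  obtain ⟨s, hs⟩ : ∃ s, Y₁ s = O₁ t := Y₁.surjective _
  have hst : s ≤ t := by
    rw [← Y₁.le_iff_le, hs]
    exact hOY
  have hAB : A s ≤ B t := by
    by_contra hn
    push Not at hn
    obtain ⟨w, hw⟩ : ∃ w, B w = A s := B.surjective _
    have h1 : t < w := by
      rw [← B.lt_iff_lt, hw]
      exact hn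
    have h2 := rb s w (hst.trans h1.le) hw
    rw [hs, O₁.le_iff_le] at h2
    exact absurd h1 (not_lt.mpr h2)
  obtain ⟨q, hq⟩ : ∃ q, C q = A t := C.surjective _
  have htq : t ≤ q := by
    rw [← C.le_iff_le, hq]
    exact hc
  have hYO : Y₂ q ≤ O₂ t := rc t q htq hq
  have hAt : A s ≤ A t := A.monotone hst
  rcases le_or_gt (Y₁ s) (Y₂ s) with h1 | h1
  · have h2 : Y₂ s ≤ Y₂ t := Y₂.monotone hst
    have h3 : Y₂ t ≤ Y₂ q := Y₂.monotone htq
    refine ⟨hs ▸ (h1.trans (h2.trans (h3.trans hYO))), fun h4 => ?_⟩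
    have h5 : Y₂ q ≤ Y₂ s := by
      calc Y₂ q ≤ O₂ t := hYO
        _ ≤ O₁ t := h4
        _ = Y₁ s := hs.symm
        _ ≤ Y₂ s := h1
    have h6 : q ≤ s := Y₂.le_iff_le.mp h5
    have e1 : s = t := le_antisymm hst (htq.trans h6)
    have e2 : q = t := le_antisymm (h6.trans hst) htq
    subst e1
    rw [e2] at hq
    have e3 : B s = A s := le_antisymm hb hAB
    have e4 : Y₂ s = Y₁ s := by
      refine le_antisymm ?_ h1
      calc Y₂ s ≤ Y₂ q := h3
        _ ≤ O₂ s := hYO
        _ ≤ O₁ s := h4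
        _ = Y₁ s := hs.symm
    have e5 := leg s s le_rfl e4
    exact ⟨e3, hq, inner s e5 (e3.symm ▸ e5) (hq.symm ▸ e5)⟩
  · obtain ⟨w, hw⟩ : ∃ w, Y₂ w = Y₁ s := Y₂.surjective _
    have h2 : s < w := by
      rw [← Y₂.lt_iff_lt, hw]
      exact h1
    have h3 := leg s w h2.le hw
    -- all of `a`, `b`, `c` have reached the height `A s` at `q`
    have hAq : A s ≤ A q := A.monotone (hst.trans htq)
    have hBq : A s ≤ B q := hAB.trans (B.monotone htq)
    have hCq : A s ≤ C q := hq ▸ hAt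
    have key : ∀ v, I v ≤ A s → q ≤ v → v ≤ s := by
      intro v hv hqv
      have h4 : I q ≤ A s := (I.monotone hqv).trans hv
      have h5 := inner q (h4.trans hAq) (h4.trans hBq) (h4.trans hCq)
      have h6 : q ≤ s := by
        rw [← A.le_iff_le, ← h5]
        exact h4
      have h7 : t = s := le_antisymm (htq.trans h6) hst
      have h8 : q = s := le_antisymm h6 (h7 ▸ htq)
      have h9 : I s = A s := by rw [← h8]; exact h5
      rw [← I.le_iff_le, h9]
      exact hv
    have hwq : w ≤ q := by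
      by_contra hn
      push Not at hn
      exact absurd (key w h3 hn.le) (not_le.mpr h2)
    refine ⟨?_, fun h4 => ?_⟩
    · calc O₁ t = Y₂ w := by rw [hw, hs]
        _ ≤ Y₂ q := Y₂.monotone hwq
        _ ≤ O₂ t := hYO
    · have h5 : Y₂ q ≤ Y₂ w := by
        calc Y₂ q ≤ O₂ t := hYO
          _ ≤ O₁ t := h4
          _ = Y₂ w := by rw [hw, hs]
      have h6 : q ≤ w := Y₂.le_iff_le.mp h5
      exact absurd (key w h3 h6) (not_le.mpr h2)

end Pool.Agent.Helper31.TRI
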