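import Mathlib
import Pool.Agent.Helper42.Th.Defs

/-!
Link diagrams with crossings of both signs: alternating diagrams, triangular regions of which are
filled with alternating diagrams of the opposite sign, and so on.
-/

set_option autoImplicit false

namespace Pool.Agent.Helper31.TRI

open Pool.Agent.Helper42.Th

variable {E : Type}

/-- If `e` is a leg, which starts at a vertex of a triangle and leads into the triangle, this is
the leg at the next vertex: the two legs are neighbours of the edge `rot e` of the triangle. -/
def nxt (Γ : CMap E) (e : E) : E := Γ.rot (Γ.flip (Γ.rot e))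

/-- `In Γ A e d`: the dart `d` starts at a vertex inside the triangle of the leg `e`, that is, at
a vertex which can be reached from the end of `e` without passing a leg; `A` is the set of all
legs. -/
inductive In (Γ : CMap E) (A : Set E) (e : E) : E → Prop
  | start : In Γ A e (Γ.flip e)
  | rot (d : E) (h : In Γ A e d) : In Γ A e (Γ.rot d)
  | pass (d : E) (h : In Γ A e d) (h1 : d ∉ A) (h2 : Γ.flip d ∉ A) : In Γ A e (Γ.flip d)

/-- `A` is the set of the legs, `s d` says whether the edge of `d` is positive, and `r` is the
level of a leg.  All edges at a vertex have the same sign, except that the legs which start there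
have the opposite sign; two legs are not neighbours, also not with one edge between them.  The
legs form triples: `e`, `nxt e` and `nxt (nxt e)` start at the vertices of a triangle with the
edges `rot e`, `rot (nxt e)`, `rot (nxt (nxt e))`, and they are the only legs which join the
inside of the triangle with the outside; the legs which start inside have a smaller level. -/
structure Legs (Γ : CMap E) (s : E → Bool) (A : Set E) (r : E → ℕ) : Prop where
  flip : ∀ d, s (Γ.flip d) = s d
  rot : ∀ d, s (Γ.rot d) = s d ↔ d ∉ A ∧ Γ.rot d ∉ A
  apart : ∀ e ∈ A, Γ.rot e ∉ A ∧ Γ.rot (Γ.rot e) ∉ A ∧ Γ.flip e ∉ A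
  tri : ∀ e ∈ A, nxt Γ e ∈ A ∧ nxt Γ (nxt Γ (nxt Γ e)) = e
  inner : ∀ e ∈ A, ∀ d, In Γ A e d → Γ.flip d ∈ A →
    Γ.flip d = e ∨ Γ.flip d = nxt Γ e ∨ Γ.flip d = nxt Γ (nxt Γ e)
  level : ∀ e ∈ A, ∀ d ∈ A, In Γ A e d → r d < r e

variable {G : Type*} [Group G] {Γ : CMap E}

/-- The peripheral element of the crossing of `d` which is given by the two faces, inverted for a
negative crossing. -/
def sM (L : Lab G Γ) (s : E → Bool) (d : E) : G := if s d then L.M d else (L.M d)⁻¹

/-- For one dart `d ∈ P` of every edge, the crossing ball is filled, with the elements `F d` in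
the filling: with a slope of the sign `s d`, the absolute value of which is at most `1` for the
legs and at least `1` for the edges of the triangles. -/
structure Filled (L : Lab G Γ) (s : E → Bool) (A P : Set E) (F : E → Set G) : Prop where
  cover : ∀ d, d ∈ P ∨ Γ.flip d ∈ P
  leg : ∀ d ∈ P, d ∈ A ∨ Γ.flip d ∈ A → Fill false 1 (L.D d) (sM L s d) (F d)
  side : ∀ d ∈ P, (∃ e ∈ A, Γ.rot e = d ∨ Γ.rot e = Γ.flip d) →
    Fill false 1 (sM L s d) (L.D d) (F d)
  other : ∀ d ∈ P, d ∉ A → Γ.flip d ∉ A → (∀ e ∈ A, Γ.rot e ≠ d ∧ Γ.rot e ≠ Γ.flip d) →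
    Fill true 0 (sM L s d) (L.D d) (F d)

end Pool.Agent.Helper31.TRI
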