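import Mathlib
import Pool.Agent.Helper31.TRI.Defs
import Pool.Agent.Helper31.TRI.Core
import Pool.Agent.Helper42.Th.Piece

/-!
What the fillings mean for an action on a complete linear order.
-/

set_option autoImplicit false

namespace Pool.Agent.Helper31.TRI

open Pool.Agent.Helper42.Th
open Pool.Agent.Helper31.OrderAct
open Pool.Agent.Helper71.Rot
open Pool.Agent.Helper71.Tree

section Pair

variable {Ω : Type*} [CompleteLinearOrder Ω] {m a : Ω ≃o Ω} {S : Set (Ω ≃o Ω)}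

/-- A slope which is at least one. -/
lemma one_rules (h : FillSpec false (some 1) none m a S) (hc : m * a = a * m) (z : Ω) :
    (z ≤ a z → a z ≤ m z) ∧ (a z ≤ z → m z ≤ a z) := by
  have h0 := (h.bd hc).lower 1 rfl
  have key : ∀ w : Ω, a ((a ^ (-1 : ℤ) * m) w) = m w := by
    intro w
    rw [← RelIso.mul_apply, ← mul_assoc, zpow_neg, zpow_one, mul_inv_cancel, one_mul]
  constructor
  · intro hz
    have h1 := a.monotone (h0.up z hz).1
    rwa [key] at h1
  · intro hz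
    have h1 := a.monotone (h0.dn z hz).1
    rwa [key] at h1

/-- A positive slope. -/
lemma pos_rules (h : FillSpec true (some 0) none m a S) (hc : m * a = a * m) (z : Ω) :
    (z ≤ a z → z ≤ m z) ∧ (a z ≤ z → m z ≤ z) ∧ (m z = z → a z = z) := by
  have h2 := (h.bd hc).lower 0 rfl
  have h3 := h.str hc rfl 0 rfl z
  rw [neg_zero, zpow_zero, one_mul] at h2 h3
  exact ⟨fun h => (h2.up z h).1, fun h => (h2.dn z h).1, h3⟩

end Pair

/-- The face to which the values rise at the dart `d`, if `d` starts at the higher end. -/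
def top {E : Type} {T : Type*} (Γ : CMap E) (s : E → Bool) (Y : E → T) (d : E) : T :=
  if s d then Y d else Y (Γ.flip d)

/-- What the fillings mean for the action. -/
structure Rules {E : Type} {Ω : Type*} [LinearOrder Ω] (Γ : CMap E) (s : E → Bool) (A : Set E)
    (X Y : E → Ω ≃o Ω) : Prop where
  x_rot : ∀ d z, X (Γ.rot d) z = X d z
  y_rot : ∀ d z, Y (Γ.flip (Γ.rot d)) z = Y d z
  pos : ∀ d z, X (Γ.flip d) z ≤ X d z → top Γ s Y (Γ.flip d) z ≤ top Γ s Y d z
  str : ∀ d z, top Γ s Y (Γ.flip d) z = top Γ s Y d z → X (Γ.flip d) z = X d z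
  side : ∀ d z w, (∃ e ∈ A, Γ.rot e = d ∨ Γ.rot e = Γ.flip d) → z ≤ w →
    X (Γ.flip d) w = X d z → top Γ s Y (Γ.flip d) w ≤ top Γ s Y d z
  leg : ∀ d z w, d ∈ A ∨ Γ.flip d ∈ A → z ≤ w → top Γ s Y (Γ.flip d) w = top Γ s Y d z →
    X (Γ.flip d) w ≤ X d z

variable {E : Type} {Γ : CMap E} {Ω : Type*} [CompleteLinearOrder Ω] {G : Type*} [Group G]
  (L : Lab G Γ) (ρ : G →* (Ω ≃o Ω)) {s : E → Bool} {A P : Set E} {r : E → ℕ} {F : E → Set G}

lemma top_sM (hs : ∀ d, s (Γ.flip d) = s d) (d : E) (z : Ω) :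
    top Γ s (ly L ρ) (Γ.flip d) (ρ (sM L s d) z) = top Γ s (ly L ρ) d z := by
  unfold top sM
  rw [hs]
  by_cases h : s d = true
  · simp only [h, if_true]
    exact Y_M L ρ d z
  · simp only [h, if_false, Γ.flip_flip, Bool.false_eq_true]
    have h1 := Y_M L ρ d (ρ (L.M d)⁻¹ z)
    rw [← h1, map_inv, RelIso.apply_inv_self]

lemma comm_sM (d : E) : ρ (sM L s d) * ρ (L.D d) = ρ (L.D d) * ρ (sM L s d) := by
  have h : Commute (L.M d) (L.D d) := comm_MD L d
  rw [← map_mul, ← map_mul]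
  congr 1
  unfold sM
  split_ifs
  · exact h.eq
  · exact h.inv_left.eq

/-- The rules for a dart and for the opposite dart. -/
lemma rules_of_filled (H : Legs Γ s A r) (h : Filled L s A P F) :
    Rules Γ s A (lx L ρ) (ly L ρ) := by
  have hs := H.flip
  -- the values
  have hX : ∀ d z, lx L ρ (Γ.flip d) (ρ (L.D d) z) = lx L ρ d z := X_D L ρ
  have hT : ∀ d z, top Γ s (ly L ρ) (Γ.flip d) (ρ (sM L s d) z) = top Γ s (ly L ρ) d z :=
    top_sM L ρ hs
  have xle : ∀ d z w, w ≤ ρ (L.D d) z ↔ lx L ρ (Γ.flip d) w ≤ lx L ρ d z := by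
    intro d z w
    rw [← hX d z]
    exact (lx L ρ (Γ.flip d)).le_iff_le.symm
  have xge : ∀ d z w, ρ (L.D d) z ≤ w ↔ lx L ρ d z ≤ lx L ρ (Γ.flip d) w := by
    intro d z w
    rw [← hX d z]
    exact (lx L ρ (Γ.flip d)).le_iff_le.symm
  have tle : ∀ d z w, w ≤ ρ (sM L s d) z ↔
      top Γ s (ly L ρ) (Γ.flip d) w ≤ top Γ s (ly L ρ) d z := by
    intro d z w
    rw [← hT d z]
    exact (top Γ s (ly L ρ) (Γ.flip d)).le_iff_le.symm
  have tge : ∀ d z w, ρ (sM L s d) z ≤ w ↔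
      top Γ s (ly L ρ) d z ≤ top Γ s (ly L ρ) (Γ.flip d) w := by
    intro d z w
    rw [← hT d z]
    exact (top Γ s (ly L ρ) (Γ.flip d)).le_iff_le.symm
  -- the three kinds of darts in `P`
  have leg0 : ∀ d ∈ P, d ∈ A ∨ Γ.flip d ∈ A → ∀ z,
      (z ≤ ρ (sM L s d) z → ρ (sM L s d) z ≤ ρ (L.D d) z) ∧
      (ρ (sM L s d) z ≤ z → ρ (L.D d) z ≤ ρ (sM L s d) z) := by
    intro d hd hA z
    exact one_rules (spec_of_fill ρ (h.leg d hd hA)) (comm_sM L ρ d).symm z
  have side0 : ∀ d ∈ P, (∃ e ∈ A, Γ.rot e = d ∨ Γ.rot e = Γ.flip d) → ∀ z,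
      (z ≤ ρ (L.D d) z → ρ (L.D d) z ≤ ρ (sM L s d) z) ∧
      (ρ (L.D d) z ≤ z → ρ (sM L s d) z ≤ ρ (L.D d) z) := by
    intro d hd hA z
    exact one_rules (spec_of_fill ρ (h.side d hd hA)) (comm_sM L ρ d) z
  have all0 : ∀ d ∈ P, ∀ z, (z ≤ ρ (L.D d) z → z ≤ ρ (sM L s d) z) ∧
      (ρ (L.D d) z ≤ z → ρ (sM L s d) z ≤ z) ∧ (ρ (sM L s d) z = z → ρ (L.D d) z = z) := by
    intro d hd z
    by_cases h1 : d ∈ A ∨ Γ.flip d ∈ A
    · obtain ⟨h2, h3⟩ := leg0 d hd h1 z
      refine ⟨fun h4 => ?_, fun h4 => ?_, fun h4 => le_antisymm ?_ ?_⟩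
      · by_contra hn
        push Not at hn
        exact absurd (h4.trans (h3 hn.le)) (not_le.mpr hn)
      · by_contra hn
        push Not at hn
        exact absurd ((h2 hn.le).trans h4) (not_le.mpr hn)
      · exact (h3 h4.le).trans h4.le
      · exact h4.ge.trans (h2 h4.ge)
    · by_cases h2 : ∃ e ∈ A, Γ.rot e = d ∨ Γ.rot e = Γ.flip d
      · obtain ⟨h3, h4⟩ := side0 d hd h2 z
        refine ⟨fun h5 => h5.trans (h3 h5), fun h5 => (h4 h5).trans h5, fun h5 => ?_⟩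
        rcases le_total z (ρ (L.D d) z) with h6 | h6
        · exact le_antisymm ((h3 h6).trans h5.le) h6
        · exact le_antisymm h6 (h5.ge.trans (h4 h6))
      · push Not at h1 h2
        exact pos_rules (spec_of_fill ρ (h.other d hd h1.1 h1.2 h2)) (comm_sM L ρ d) z
  refine ⟨?_, ?_, ?_, ?_, ?_, ?_⟩
  · intro d z
    change ρ (L.x (Γ.rot d)) z = ρ (L.x d) z
    rw [L.x_rot]
  · intro d z
    change ρ (L.y (Γ.flip (Γ.rot d))) z = ρ (L.y d) z
    rw [L.y_rot]
  · intro d z h1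
    rcases h.cover d with hd | hd
    · rw [← tle, ← xle] at *
      exact (all0 d hd z).1 h1
    · have h2 := (all0 _ hd z).2.1 ((xge _ _ _).mpr (by rwa [Γ.flip_flip]))
      rw [tge, Γ.flip_flip] at h2
      exact h2
  · intro d z h1
    rcases h.cover d with hd | hd
    · have h2 := (all0 d hd z).2.2 (le_antisymm ((tge _ _ _).mpr h1.ge) ((tle _ _ _).mpr h1.le))
      exact le_antisymm ((xle _ _ _).mp h2.ge) ((xge _ _ _).mp h2.le)
    · have h2 := (all0 _ hd z).2.2 (le_antisymm ((tge _ _ _).mpr (by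
        rw [Γ.flip_flip]; exact h1.le)) ((tle _ _ _).mpr (by rw [Γ.flip_flip]; exact h1.ge)))
      have h3 := (xle _ _ _).mp h2.ge
      have h4 := (xge _ _ _).mp h2.le
      rw [Γ.flip_flip] at h3 h4
      exact le_antisymm h4 h3
  · intro d z w hA hzw h1
    rcases h.cover d with hd | hd
    · have e1 : ρ (L.D d) z = w := le_antisymm ((xge _ _ _).mpr h1.ge) ((xle _ _ _).mpr h1.le)
      rw [← tle, ← e1]
      exact (side0 d hd hA z).1 (by rwa [e1])
    · have hA' : ∃ e ∈ A, Γ.rot e = Γ.flip d ∨ Γ.rot e = Γ.flip (Γ.flip d) := by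
        obtain ⟨e, he, h2⟩ := hA
        exact ⟨e, he, by rw [Γ.flip_flip]; exact h2.symm⟩
      have e1 : ρ (L.D (Γ.flip d)) w = z := le_antisymm ((xge _ _ _).mpr (by
        rw [Γ.flip_flip]; exact h1.le)) ((xle _ _ _).mpr (by rw [Γ.flip_flip]; exact h1.ge))
      have h2 := (side0 _ hd hA' w).2 (by rwa [e1])
      rw [e1, tge, Γ.flip_flip] at h2
      exact h2
  · intro d z w hA hzw h1
    rcases h.cover d with hd | hd
    · have e1 : ρ (sM L s d) z = w := le_antisymm ((tge _ _ _).mpr h1.ge) ((tle _ _ _).mpr h1.le)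
      rw [← xle, ← e1]
      exact (leg0 d hd hA z).1 (by rwa [e1])
    · have hA' : Γ.flip d ∈ A ∨ Γ.flip (Γ.flip d) ∈ A := by
        rw [Γ.flip_flip]
        exact hA.symm
      have e1 : ρ (sM L s (Γ.flip d)) w = z := le_antisymm ((tge _ _ _).mpr (by
        rw [Γ.flip_flip]; exact h1.le)) ((tle _ _ _).mpr (by rw [Γ.flip_flip]; exact h1.ge))
      have h2 := (leg0 _ hd hA' w).2 (by rwa [e1])
      rw [e1, xge, Γ.flip_flip] at h2
      exact h2

end Pool.Agent.Helper31.TRI
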