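import Mathlib
import Pool.Agent.Helper31.TRI.Proof

/-!
Diagrams with filled triangles: the fundamental group is not left-orderable.
-/

set_option autoImplicit false

namespace Pool.Agent.Helper31.TRI

open Pool.Agent.Helper42.Th
open Pool.Agent.Helper31.OrderAct
open Pool.Agent.Helper71.Rot
open Pool.Agent.Helper71.Tree

variable {E : Type} {Γ : CMap E} {s : E → Bool} {A : Set E} {r : E → ℕ}

section

variable {Ω : Type*} [LinearOrder Ω] {X Y : E → Ω ≃o Ω}

/-- The rules for the opposite order. -/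
lemma Rules.dual (R : Rules Γ s A X Y) :
    Rules Γ s A (fun d => (X d).dual) (fun d => (Y d).dual) := by
  have ht : ∀ d (z : Ωᵒᵈ), top Γ s (fun d => (Y d).dual) d z =
      OrderDual.toDual (top Γ s Y d (OrderDual.ofDual z)) := by
    intro d z
    unfold top
    split_ifs <;> rfl
  refine ⟨fun d z => ?_, fun d z => ?_, fun d z h => ?_, fun d z h => ?_, fun d z w hA hzw h => ?_,
    fun d z w hA hzw h => ?_⟩
  · exact congrArg OrderDual.toDual (R.x_rot d (OrderDual.ofDual z))
  · exact congrArg OrderDual.toDual (R.y_rot d (OrderDual.ofDual z))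
  · rw [ht, ht, OrderDual.toDual_le_toDual]
    have h1 := R.pos (Γ.flip d) (OrderDual.ofDual z) (by
      rw [Γ.flip_flip]
      exact h)
    rwa [Γ.flip_flip] at h1
  · rw [ht, ht] at h
    exact congrArg OrderDual.toDual (R.str d (OrderDual.ofDual z) (OrderDual.toDual.injective h))
  · rw [ht, ht, OrderDual.toDual_le_toDual]
    have h1 := R.side (Γ.flip d) (OrderDual.ofDual w) (OrderDual.ofDual z) (by
      obtain ⟨e, he, h2⟩ := hA
      exact ⟨e, he, by rw [Γ.flip_flip]; exact h2.symm⟩) hzw (by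
      rw [Γ.flip_flip]
      exact (OrderDual.toDual.injective h).symm)
    rwa [Γ.flip_flip] at h1
  · rw [ht, ht] at h
    have h1 := R.leg (Γ.flip d) (OrderDual.ofDual w) (OrderDual.ofDual z) (by
      rw [Γ.flip_flip]
      exact hA.symm) hzw (by
      rw [Γ.flip_flip]
      exact (OrderDual.toDual.injective h).symm)
    rw [Γ.flip_flip] at h1
    exact h1

/-- The maximum over the vertices inside a triangle is not attained at the end of a leg only. -/
theorem inner_max [Finite E] (H : Legs Γ s A r) (R : Rules Γ s A X Y) {e : E} (he : e ∈ A)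
    (hcl : ∀ d ∈ A, In Γ A e d → Claim Γ s X Y d) (q : Ω) (h1 : X e q ≤ X (Γ.flip e) q)
    (h2 : X (nxt Γ (nxt Γ e)) q ≤ X (Γ.flip e) q) (h3 : X (nxt Γ e) q ≤ X (Γ.flip e) q) :
    X e q = X (Γ.flip e) q := by
  -- the maximum
  have hfin : (Set.univ : Set E).Finite := Set.finite_univ
  obtain ⟨m, hm, hmax⟩ := Set.exists_max_image {d | In Γ A e d} (fun d => X d q)
    (Set.toFinite _) ⟨_, In.start⟩
  change In Γ A e m at hm
  have hmax' : ∀ d, In Γ A e d → X d q ≤ X m q := fun d hd => hmax d hd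
  set W : Set E := {d | In Γ A e d ∧ X d q = X m q} with hWd
  have hrot : ∀ d, In Γ A e (Γ.rot d) → In Γ A e d := by
    intro d hd
    have hn : ∀ n : ℕ, In Γ A e ((Γ.rot ^ n) (Γ.rot d)) := by
      intro n
      induction n with
      | zero => exact hd
      | succ n ih =>
        rw [pow_succ', Equiv.Perm.mul_apply]
        exact In.rot _ ih
    have h4 : 0 < orderOf Γ.rot := orderOf_pos _
    have h5 := hn (orderOf Γ.rot - 1)
    rwa [← Equiv.Perm.mul_apply, ← pow_succ,
      show orderOf Γ.rot - 1 + 1 = orderOf Γ.rot by omega, pow_orderOf_eq_one] at h5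
  have hW : ∀ d, Γ.rot d ∈ W ↔ d ∈ W := by
    intro d
    constructor
    · rintro ⟨h4, h5⟩
      exact ⟨hrot d h4, (R.x_rot d q).symm.trans h5⟩
    · rintro ⟨h4, h5⟩
      exact ⟨In.rot d h4, (R.x_rot d q).trans h5⟩
  have hle : ∀ d, In Γ A e d → d ∉ A → X (Γ.flip d) q ≤ X m q := by
    intro d hd hdA
    by_cases h4 : Γ.flip d ∈ A
    · have h5 := hmax' _ (In.start (Γ := Γ) (A := A) (e := e))
      rcases H.inner e he d hd h4 with h6 | h6 | h6
      · rw [h6]
        exact h1.trans h5
      · rw [h6]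
        exact h3.trans h5
      · rw [h6]
        exact h2.trans h5
    · exact hmax' _ (In.pass d hd hdA h4)
  have hnx : ∀ d ∈ A, In Γ A e d → In Γ A e (nxt Γ d) := by
    intro d hd hin
    refine In.rot _ (In.pass _ (In.rot _ hin) (H.apart d hd).1 ?_)
    intro h4
    exact (H.apart _ h4).1 (H.tri d hd).1
  have hsp := spread H R q W hW (fun d hd ha => hcl d ha hd.1) (fun d hd ha => by
    rw [hd.2]
    exact hle d hd.1 ha) (fun d hd ha => by
    have h4 := hnx d ha hd.1
    have h5 := hnx _ (H.tri d ha).1 h4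
    rw [hd.2]
    exact ⟨hmax' _ h4, hmax' _ h5⟩)
  -- the end of the leg is in `W`
  have hall : ∀ d, In Γ A e d → Γ.flip e ∉ W → d ∉ W := by
    intro d hd hn
    induction hd with
    | start => exact hn
    | rot d hd ih => exact fun h4 => ih ((hW d).mp h4)
    | pass d hd hd1 hd2 ih =>
      intro h4
      apply ih
      have h5 := hsp _ h4
      rw [Γ.flip_flip] at h5
      exact ⟨hd, h5.trans h4.2⟩
  have hmem : Γ.flip e ∈ W := by
    by_contra hn
    exact hall m hm hn ⟨hm, rfl⟩
  have h4 := hsp _ hmem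
  rwa [Γ.flip_flip] at h4

end

/-- All filled triangles behave like edges. -/
theorem claims [Finite E] (H : Legs Γ s A r) :
    ∀ n : ℕ, ∀ e ∈ A, r e < n → ∀ {Ω : Type*} [LinearOrder Ω] {X Y : E → Ω ≃o Ω},
      Rules Γ s A X Y → Claim Γ s X Y e := by
  intro n
  induction n with
  | zero => intro e _ h; exact absurd h (Nat.not_lt_zero _)
  | succ n ih =>
    intro e he hr Ω _ X Y R
    refine claim_of_inner H R he fun q h1 h2 h3 => ?_
    have h4 := inner_max H R.dual he (fun d hd hin => by
      have h5 := H.level e he d hd hin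
      exact ih d hd (by omega) R.dual) (OrderDual.toDual q) h1 h2 h3
    exact (OrderDual.toDual.injective h4).symm

/-- At every point, all labels agree. -/
theorem all_eq [Finite E] (H : Legs Γ s A r) {Ω : Type*} [LinearOrder Ω] {X Y : E → Ω ≃o Ω}
    (R : Rules Γ s A X Y) (z : Ω) : (∀ c d, X c z = X d z) ∧ ∀ c d, Y c z = Y d z := by
  rcases isEmpty_or_nonempty E with hE | hE
  · exact ⟨fun c => hE.elim c, fun c => hE.elim c⟩
  obtain ⟨m, hm⟩ := Finite.exists_max (fun d => X d z)
  have hsp := spread H R z {d | X d z = X m z} (fun d => by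
    change X (Γ.rot d) z = X m z ↔ X d z = X m z
    rw [R.x_rot]) (fun e _ ha => claims H (r e + 1) e ha (Nat.lt_succ_self _) R)
    (fun d hd _ => (hm _).trans (le_of_eq (Eq.symm hd)))
    (fun d hd _ => ⟨(hm _).trans (le_of_eq (Eq.symm hd)), (hm _).trans (le_of_eq (Eq.symm hd))⟩)
  have huniv := Γ.conn {d | X d z = X m z} ⟨m, rfl⟩ fun d hd => by
    refine ⟨?_, (hsp d hd).trans hd⟩
    change X (Γ.rot d) z = X m z
    rw [R.x_rot]
    exact hd
  have hX : ∀ d, X d z = X m z := by
    intro d
    have : d ∈ {d | X d z = X m z} := by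
      rw [huniv]
      trivial
    exact this
  have hY : ∀ d, Y (Γ.flip d) z = Y d z := by
    intro d
    have h1 := R.pos d z ((hX _).trans (hX _).symm).le
    have h2 := R.pos (Γ.flip d) z ((hX _).trans (hX _).symm).le
    rw [Γ.flip_flip] at h2
    have h3 := le_antisymm h1 h2
    unfold top at h3
    rw [H.flip, Γ.flip_flip] at h3
    split_ifs at h3
    · exact h3
    · exact h3.symm
  have huniv' := Γ.conn {d | Y d z = Y m z} ⟨m, rfl⟩ fun d hd => by
    refine ⟨?_, (hY d).trans hd⟩
    change Y (Γ.rot d) z = Y m z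
    rw [← hY, R.y_rot]
    exact hd
  have hYm : ∀ d, Y d z = Y m z := by
    intro d
    have : d ∈ {d | Y d z = Y m z} := by
      rw [huniv']
      trivial
    exact this
  exact ⟨fun c d => (hX c).trans (hX d).symm, fun c d => (hYm c).trans (hYm d).symm⟩

/-- The main theorem. -/
theorem not_leftOrderable [Finite E] {G : Type*} [Group G] (L : Lab G Γ) (P : Set E)
    (F : E → Set G) (H : Legs Γ s A r) (hF : Filled L s A P F)
    (hgen : Subgroup.closure (L.elts ∪ ⋃ d ∈ P, F d) = ⊤) :
    ¬ (Nontrivial G ∧ ∃ _ : LinearOrder G, ∀ f g h : G, g ≤ h → f * g ≤ f * h) := by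
  rintro ⟨hnt, ⟨ho, hmul⟩⟩
  have hall : ∀ z : LowerSet G, ∀ g : G, cutHom hmul g z = z := by
    intro z g
    set ρ := cutHom hmul with hρ
    obtain ⟨hX, hY⟩ := all_eq H (rules_of_filled L ρ H hF) z
    have hX1 : ∀ d, ρ (L.x d) z = z := by
      obtain ⟨c, hc⟩ := L.x_one
      intro d
      have h1 : lx L ρ d z = lx L ρ c z := hX d c
      change ρ (L.x d) z = ρ (L.x c) z at h1
      rw [h1, hc, map_one]
      rfl
    have hY1 : ∀ d, ρ (L.y d) z = z := by
      obtain ⟨c, hc⟩ := L.y_one
      intro d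
      have h1 : ly L ρ d z = ly L ρ c z := hY d c
      change ρ (L.y d) z = ρ (L.y c) z at h1
      rw [h1, hc, map_one]
      rfl
    have hDd : ∀ d, ρ (L.D d) z = z := by
      intro d
      rw [Lab.D, map_mul, map_inv, RelIso.mul_apply, hX1]
      exact inv_fix (hX1 _)
    have hMd : ∀ d, ρ (L.M d) z = z := by
      intro d
      rw [Lab.M, map_mul, map_inv, RelIso.mul_apply, hY1]
      exact inv_fix (hY1 _)
    have hMs : ∀ d, ρ (sM L s d) z = z := by
      intro d
      unfold sM
      split_ifs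
      · exact hMd d
      · rw [map_inv]
        exact inv_fix (hMd d)
    have hg : g ∈ Subgroup.closure (L.elts ∪ ⋃ d ∈ P, F d) := by
      rw [hgen]
      trivial
    induction hg using Subgroup.closure_induction with
    | mem y hy =>
      rcases hy with (⟨d, rfl⟩ | ⟨d, rfl⟩) | hy
      · exact hX1 d
      · exact hY1 d
      · obtain ⟨d, hd⟩ := Set.mem_iUnion.mp hy
        obtain ⟨hd1, hd2⟩ := Set.mem_iUnion.mp hd
        by_cases h1 : d ∈ A ∨ Γ.flip d ∈ A
        · exact (spec_of_fill ρ (hF.leg d hd1 h1)).fix z (hDd d) (hMs d) _ ⟨y, hd2, rfl⟩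
        · by_cases h2 : ∃ e ∈ A, Γ.rot e = d ∨ Γ.rot e = Γ.flip d
          · exact (spec_of_fill ρ (hF.side d hd1 h2)).fix z (hMs d) (hDd d) _ ⟨y, hd2, rfl⟩
          · push Not at h1 h2
            exact (spec_of_fill ρ (hF.other d hd1 h1.1 h1.2 h2)).fix z (hMs d) (hDd d) _
              ⟨y, hd2, rfl⟩
    | one => rw [map_one]; rfl
    | mul a b _ _ ha hb => rw [map_mul, RelIso.mul_apply, hb, ha]
    | inv a _ ha => rw [map_inv]; exact inv_fix ha
  obtain ⟨x, y, hxy⟩ := exists_pair_ne G
  have key : ∀ x y : G, y ≤ x := by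
    intro x y
    have h1 := hall (LowerSet.Iic x) (y * x⁻¹)
    have h2 : y ∈ LowerSet.Iic x := by
      rw [← h1, mem_cutHom]
      simp
    exact h2
  exact hxy (le_antisymm (key y x) (key x y))

end Pool.Agent.Helper31.TRI
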